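import Pool.Agent.Q21.ISD.Digon

/-!
# MP_c85533_co: medial sections of internally self-dual regular polytopes

A medial section of an internally self-dual regular polytope has no digonal section of rank two.
Hence for every `n ≥ 4` some self-dual regular `(n-2)`-polytope is not the medial section of an
internally self-dual regular `n`-polytope.
-/

set_option autoImplicit false

namespace Pool.Agent.Results.MP_c85533_co.NoDigonalSections

open Pool.Agent.Q21.ISD

universe u v

theorem result :
    (∀ (n : ℕ) (P : Type u) [PartialOrder P] [BoundedOrder P] (rk : P → ℤ) (K : Type v)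
      [PartialOrder K] [BoundedOrder K] (rkK : K → ℤ), Polytope n P rk → Regular P →
      InternallySelfDual n P rk → Polytope ((n : ℤ) - 2) K rkK → HasMedial n P rk K →
      ¬ HasDigon K rkK) ∧
    (∀ n : ℕ, 4 ≤ n → ∃ (K : Type) (_ : PartialOrder K) (_ : BoundedOrder K) (rkK : K → ℤ),
      Polytope ((n : ℤ) - 2) K rkK ∧ Regular K ∧ SelfDual K ∧ HasDigon K rkK ∧
      ∀ (P : Type u) [PartialOrder P] [BoundedOrder P] (rk : P → ℤ), Polytope n P rk →
        Regular P → InternallySelfDual n P rk → ¬ HasMedial n P rk K) := by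
  refine ⟨fun n P _ _ rk K _ _ rkK hP hreg hisd hK hmed =>
    hP.no_digon hreg hisd hK hmed, fun n hn => ?_⟩
  obtain ⟨m, rfl⟩ : ∃ m, n = m + 2 := ⟨n - 2, by omega⟩
  have hm : 2 ≤ m := by omega
  have hcast : ((m + 2 : ℕ) : ℤ) - 2 = m := by push_cast; ring
  have hK : Polytope (((m + 2 : ℕ) : ℤ) - 2) (Dg m) Dg.r := by
    rw [hcast]
    exact Dg.polytope
  refine ⟨Dg m, inferInstance, inferInstance, Dg.r, hK, Dg.regular, Dg.selfDual,
    Dg.hasDigon hm, fun P _ _ rk hP hreg hisd hmed => ?_⟩
  exact hP.no_digon hreg hisd hK hmed (Dg.hasDigon hm)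

end Pool.Agent.Results.MP_c85533_co.NoDigonalSections
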